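import Mathlib
import Pool.Agent.Lib.helper29.Conf45

set_option autoImplicit false

namespace Pool.Agent.Results.MP_ec4eff_co.Forty

open Pool.Agent.Lib.H29.Conf

/-- A geometric configuration ((5r)_4, (4r)_5) with r = 8 exists: 40 distinct points and 32
distinct lines of the real projective plane, every point on exactly 4 of the lines and every
line through exactly 5 of the points. -/
theorem result : ∃ (P : Fin (5 * 8) → PPlane) (L : Fin (4 * 8) → PPlane),
    Function.Injective P ∧ Function.Injective L ∧
    (∀ i, {j | P i ∈ lineSet (L j)}.ncard = 4) ∧ ∀ j, {i | P i ∈ lineSet (L j)}.ncard = 5 :=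
  Pool.Agent.Lib.H29.Conf45.exists_conf

end Pool.Agent.Results.MP_ec4eff_co.Forty
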